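import Pool.Agent.MP_5f72fe_nt.H3.SpecC

/-! The Shimura lift is a combination of columns, and the Shintani lift of a linear form lies in the
plus space. -/

namespace Pool.Agent.MP_5f72fe_nt.H68

open Complex Filter Topology MeasureTheory Set Pool.Agent.MP_5f72fe_nt.H3
open scoped Real MatrixGroups UpperHalfPlane NumberTheorySymbols

noncomputable section

theorem sm_par {c : ℕ → ℂ} (h : Sm c) (μ : ℕ) : Sm (par μ c) := by
  intro r h0 h1
  refine Summable.of_nonneg_of_le (fun n => by positivity) (fun n => ?_) (h r h0 h1)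
  unfold par
  split_ifs
  · exact le_rfl
  · rw [norm_zero, zero_mul]; positivity

theorem sm_add {c d : ℕ → ℂ} (h : Sm c) (h' : Sm d) : Sm (c + d) := by
  intro r h0 h1
  refine Summable.of_nonneg_of_le (fun n => by positivity) (fun n => ?_) ((h r h0 h1).add (h' r h0 h1))
  rw [← add_mul]
  exact mul_le_mul_of_nonneg_right (norm_add_le _ _) (by positivity)

theorem sm_smul {c : ℕ → ℂ} (h : Sm c) (x : ℂ) : Sm (x • c) := by
  intro r h0 h1
  refine ((h r h0 h1).mul_left ‖x‖).congr fun n => ?_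
  simp [mul_assoc]

theorem sm_zero : Sm 0 := by
  intro r _ _
  simp

theorem ser_smul (μ : ℕ) (x : ℂ) (c : ℕ → ℂ) (τ : ℂ) :
    ser 4 (par μ (x • c)) τ = x * ser 4 (par μ c) τ := by
  unfold ser
  rw [← tsum_mul_left]
  refine tsum_congr fun n => ?_
  unfold par
  split_ifs <;> simp [mul_assoc]

theorem ser_add (hS : RowSER) (μ : ℕ) {c d : ℕ → ℂ} (h : Sm c) (h' : Sm d) {τ : ℂ} (hτ : 0 < τ.im) :
    ser 4 (par μ (c + d)) τ = ser 4 (par μ c) τ + ser 4 (par μ d) τ := by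
  unfold ser
  rw [← (hS.nsum 4 _ τ (by norm_num) (sm_par h μ) hτ).of_norm.tsum_add
    (hS.nsum 4 _ τ (by norm_num) (sm_par h' μ) hτ).of_norm]
  refine tsum_congr fun n => ?_
  unfold par
  split_ifs <;> simp [add_mul]

theorem im_inv {τ : ℂ} (hτ : 0 < τ.im) : 0 < (-1 / (((1 : ℕ) : ℂ) * τ)).im := by
  have h : τ ≠ 0 := fun h => by simp [h] at hτ
  have : 0 < normSq τ := normSq_pos.2 h
  simp only [Nat.cast_one, one_mul, neg_div, one_div, neg_im, inv_im, neg_neg]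
  positivity

/-- the plus space as a subspace -/
def VS (hS : RowSER) (k : ℕ) : Submodule ℂ (ℕ → ℂ) where
  carrier := {c | VL k c}
  add_mem' := by
    rintro c d ⟨h1, h2, h3⟩ ⟨g1, g2, g3⟩
    refine ⟨sm_add h1 g1, fun n hn => ?_, fun τ hτ μ hμ => ?_⟩
    · by_cases h : c n = 0
      · exact g2 n (by simpa [h] using hn)
      · exact h2 n h
    · rw [ser_add hS μ h1 g1 (im_inv hτ), ser_add hS 0 h1 g1 hτ, ser_add hS 1 h1 g1 hτ,
        h3 τ hτ μ hμ, g3 τ hτ μ hμ]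
      ring
  zero_mem' := by
    refine ⟨sm_zero, fun n hn => absurd rfl hn, fun τ _ μ _ => ?_⟩
    have h : ∀ μ τ, ser 4 (par μ 0) τ = 0 := fun μ τ => by
      simpa using ser_smul μ 0 0 τ
    simp [h]
  smul_mem' := by
    rintro x c ⟨h1, h2, h3⟩
    refine ⟨sm_smul h1 x, fun n hn => h2 n fun h => hn (by simp [h]), fun τ hτ μ hμ => ?_⟩
    rw [ser_smul, ser_smul, ser_smul, h3 τ hτ μ hμ]
    ring

theorem pv_smul (k : ℕ) (x : ℂ) (h c : ℕ → ℂ) (τ : ℂ) : pv k (x • h) c τ = x * pv k h c τ := by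
  unfold pv
  rw [ser_smul, ser_smul]
  ring

theorem pv_add (hS : RowSER) (k : ℕ) {h g : ℕ → ℂ} (hh : Sm h) (hg : Sm g) (c : ℕ → ℂ) {τ : ℂ}
    (hτ : 0 < τ.im) : pv k (h + g) c τ = pv k h c τ + pv k g c τ := by
  unfold pv
  rw [ser_add hS 0 hh hg hτ, ser_add hS 1 hh hg hτ]
  ring

/-- the sequences that pair with `c` -/
def TS (hS : RowSER) (k : ℕ) (c : ℕ → ℂ) (ν : Measure ℂ) (hν : ∀ᵐ τ ∂ν, 0 < τ.im) :
    Submodule ℂ (ℕ → ℂ) where
  carrier := {h | Sm h ∧ Integrable (pv k h c) ν}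
  add_mem' := by
    rintro h g ⟨h1, h2⟩ ⟨g1, g2⟩
    refine ⟨sm_add h1 g1, (h2.add g2).congr ?_⟩
    filter_upwards [hν] with τ hτ
    rw [pv_add hS k h1 g1 c hτ]; rfl
  zero_mem' := by
    refine ⟨sm_zero, ?_⟩
    have h : pv k 0 c = fun _ => 0 := funext fun τ => by simpa using pv_smul k 0 0 c τ
    rw [h]
    exact integrable_zero _ _ _
  smul_mem' := by
    rintro x h ⟨h1, h2⟩
    refine ⟨sm_smul h1 x, ?_⟩
    have e : pv k (x • h) c = fun τ => x * pv k h c τ := funext fun τ => pv_smul k x h c τ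
    rw [e]
    exact h2.const_mul x

theorem pw_zero {k : ℕ} (hk : 1 ≤ k) : pw k 0 = 0 := by
  unfold pw
  have : (1 : ℝ) ≤ k := by exact_mod_cast hk
  rw [Nat.cast_zero, Real.zero_rpow (by linarith)]
  simp

/-- the Shintani lift -/
def lift {W : Type} [AddCommGroup W] [Module ℂ W] (k : ℕ) (F : ℕ → W) :
    (W →ₗ[ℂ] ℂ) →ₗ[ℂ] (ℕ → ℂ) where
  toFun l := fun n => pw k n * l (F n)
  map_add' l l' := by funext n; simp [mul_add]
  map_smul' x l := by funext n; simp [mul_left_comm]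

theorem adm_one {N k : ℕ} (h : Adm N k) : 1 ≤ N ∧ 1 ≤ k := by
  obtain ⟨h1, _, h3⟩ := h
  omega

theorem fin (w : ℤ) : FiniteDimensional ℂ (CuspForm 𝒮ℒ w) :=
  CuspForm.discriminantEquiv.symm.finiteDimensional

/-- a subspace that contains the rows contains every lift -/
theorem lift_mem (hS : RowSER) (hM : RowMATCH) (hR : RowROW) {N k : ℕ} (hA : Adm N k)
    (F : ℕ → CuspForm 𝒮ℒ (2 * k : ℕ))
    (hF : ∀ n : ℕ, 1 ≤ n → ∀ m : ℕ, 1 ≤ m → aF (F n) m = Acol N k n m) :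
    ∃ a : ℕ → (CuspForm 𝒮ℒ (2 * k : ℕ) →ₗ[ℂ] ℂ), (∀ m f, a m f = aF f m) ∧
      (∀ m, 1 ≤ m → lift k F (a m) = ((m : ℂ) ^ (2 * k - 1) * cA k / cB N k) • Brow N k m) ∧
      ∀ T : Submodule ℂ (ℕ → ℂ), (∀ m, 1 ≤ m → Brow N k m ∈ T) → ∀ l, lift k F l ∈ T := by
  have := fin (2 * k : ℕ)
  obtain ⟨A, hA1, hA2⟩ := hS.cfLin (2 * k : ℕ)
  obtain ⟨hN, hk⟩ := adm_one hA
  have ha : ∀ m f, ((LinearMap.proj m).comp A : CuspForm 𝒮ℒ (2 * k : ℕ) →ₗ[ℂ] ℂ) f = aF f m := by
    intro m f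
    simp [hA2]
  have hb : ∀ m, 1 ≤ m → lift k F ((LinearMap.proj m).comp A) =
      ((m : ℂ) ^ (2 * k - 1) * cA k / cB N k) • Brow N k m := by
    intro m hm
    funext n
    change pw k n * ((LinearMap.proj m).comp A : CuspForm 𝒮ℒ (2 * k : ℕ) →ₗ[ℂ] ℂ) (F n) =
      ((m : ℂ) ^ (2 * k - 1) * cA k / cB N k) * Brow N k m n
    rcases Nat.eq_zero_or_pos n with rfl | hn
    · rw [pw_zero hk, (hR N k m hA hm).2.1]; simp
    · obtain ⟨_, h2, h3⟩ := hM N k m n hN hk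
      rw [ha, hF n hn m hm, div_mul_eq_mul_div, ← h3]
      field_simp
  refine ⟨fun m => (LinearMap.proj m).comp A, ha, hb, fun T hT l => ?_⟩
  have htop : Submodule.span ℂ {l : CuspForm 𝒮ℒ (2 * k : ℕ) →ₗ[ℂ] ℂ |
      ∃ m, 1 ≤ m ∧ l = (LinearMap.proj m).comp A} = ⊤ := by
    refine Submodule.span_eq_top_of_ne_zero fun z hz => ?_
    by_contra hc
    refine hz (hA1 ?_)
    rw [map_zero]
    funext m
    rcases Nat.eq_zero_or_pos m with rfl | hm
    · rw [hA2]; exact (hS.cf _ z).2.1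
    · by_contra h
      exact hc ⟨_, ⟨m, hm, rfl⟩, h⟩
  have hle : Submodule.span ℂ {l : CuspForm 𝒮ℒ (2 * k : ℕ) →ₗ[ℂ] ℂ |
      ∃ m, 1 ≤ m ∧ l = (LinearMap.proj m).comp A} ≤ T.comap (lift k F) := by
    refine Submodule.span_le.2 ?_
    rintro _ ⟨m, hm, rfl⟩
    change lift k F _ ∈ T
    rw [hb m hm]
    exact T.smul_mem _ (hT m hm)
  exact hle (htop ▸ Submodule.mem_top)

theorem rowSHIM : OfSHIM := by
  intro hS hM hR hC hU hV
  refine ⟨fun N k c hA hc hc0 => ?_, fun N k l F hA hF => ?_⟩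
  · have := fin (2 * k : ℕ)
    obtain ⟨ν, hν⟩ := hU
    obtain ⟨C, hC0, hCV⟩ := hV ν N k hν hA
    obtain ⟨hN, hk⟩ := adm_one hA
    have hex : ∀ n : ℕ, ∃ F : CuspForm 𝒮ℒ (2 * k : ℕ),
        1 ≤ n → ∀ m : ℕ, 1 ≤ m → aF F m = Acol N k n m := by
      intro n
      by_cases hn : 1 ≤ n
      · obtain ⟨F, _, h⟩ := hC N k n hA hn
        exact ⟨F, fun _ => h⟩
      · exact ⟨0, fun h => absurd h hn⟩
    choose F hF using hex
    obtain ⟨a, ha, hb, hT⟩ := lift_mem hS hM hR hA F hF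
    have hI := hT (TS hS k c ν hν.2.1) fun m hm => ⟨(hR N k m hA hm).1.1, (hCV c hc hc0 m hm).1⟩
    let L : (CuspForm 𝒮ℒ (2 * k : ℕ) →ₗ[ℂ] ℂ) →ₗ[ℂ] ℂ :=
      { toFun := fun l => ∫ τ, pv k (lift k F l) c τ ∂ν
        map_add' := fun l l' => by
          rw [map_add, ← integral_add (hI l).2 (hI l').2]
          refine integral_congr_ae ?_
          filter_upwards [hν.2.1] with τ hτ
          exact pv_add hS k (hI l).1 (hI l').1 c hτ
        map_smul' := fun x l => by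
          rw [map_smul, RingHom.id_apply, smul_eq_mul, ← integral_const_mul]
          exact integral_congr_ae (Eventually.of_forall fun τ => pv_smul k x _ c τ) }
    obtain ⟨G, hG⟩ := (Module.bijective_dual_eval ℂ (CuspForm 𝒮ℒ (2 * k : ℕ))).2 L
    have hGl : ∀ l : CuspForm 𝒮ℒ (2 * k : ℕ) →ₗ[ℂ] ℂ, l G = L l := fun l => by rw [← hG]; rfl
    have hmem : G ∈ Submodule.span ℂ (F '' {n | 1 ≤ n}) := by
      refine (Subspace.forall_mem_dualAnnihilator_apply_eq_zero_iff _ G).1 fun l hl => ?_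
      have h0 : lift k F l = 0 := by
        funext n
        change pw k n * l (F n) = 0
        rcases Nat.eq_zero_or_pos n with rfl | hn
        · rw [pw_zero hk, zero_mul]
        · rw [(Submodule.mem_dualAnnihilator l).1 hl (F n) (Submodule.subset_span ⟨n, hn, rfl⟩),
            mul_zero]
      rw [hGl]
      change ∫ τ, pv k (lift k F l) c τ ∂ν = 0
      have h : pv k 0 c = fun _ => 0 := funext fun τ => by simpa using pv_smul k 0 0 c τ
      rw [h0, h]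
      simp
    obtain ⟨x, hx, hxG⟩ := (Finsupp.mem_span_image_iff_linearCombination ℂ).1 hmem
    obtain ⟨hcA, hcB, _⟩ := hM N k 1 1 hN hk
    refine ⟨x.support, fun n => cB N k / (cA k * C) * x n, fun n hn => hx hn, fun m hm => ?_⟩
    have h1 : a m G = cA k / cB N k * (C * shim N k c m) := by
      rw [hGl, ← (hCV c hc hc0 m hm).2]
      change ∫ τ, pv k (lift k F (a m)) c τ ∂ν = _
      rw [hb m hm]
      simp only [pv_smul]
      rw [integral_const_mul]
      ring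
    have h2 : a m G = ∑ n ∈ x.support, x n * Acol N k n m := by
      rw [← hxG, Finsupp.linearCombination_apply, Finsupp.sum, map_sum]
      refine Finset.sum_congr rfl fun n hn => ?_
      rw [map_smul, smul_eq_mul, ha, hF n (hx hn) m hm]
    simp only [mul_assoc]
    rw [← Finset.mul_sum, ← h2, h1]
    field_simp
  · obtain ⟨a, _, _, hT⟩ := lift_mem hS hM hR hA F hF
    exact hT (VS hS k) (fun m hm => (hR N k m hA hm).1) l

end

end Pool.Agent.MP_5f72fe_nt.H68
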